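import Pool.Agent.Helper49.HW.Defs

/-! # Cycle lemma for words (block CB for MP_074879_pr) -/

open Finset

namespace HW

private theorem stp_append' (x y : List ℕ) : stp (x ++ y) = stp x + stp y := by
  simp [stp]

private theorem stp_drop' (x : List ℕ) (i : ℕ) : stp (x.drop i) = stp x - stp (x.take i) := by
  have h := stp_append' (x.take i) (x.drop i)
  rw [List.take_append_drop] at h
  omega

/-- partial sums of a rotated word, before the end of the first part -/
private theorem stp_take_rotate_left (x : List ℕ) {i j : ℕ} (hi : i ≤ x.length)
    (hj : i + j ≤ x.length) :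
    stp ((x.rotate i).take j) = stp (x.take (i + j)) - stp (x.take i) := by
  rw [List.rotate_eq_drop_append_take hi, List.take_append_of_le_length (by
    rw [List.length_drop]; omega)]
  have h : x.take (i + j) = x.take i ++ (x.drop i).take j := List.take_add
  rw [h, stp_append']
  ring

/-- partial sums of a rotated word, after the end of the first part -/
private theorem stp_take_rotate_right (x : List ℕ) {i j : ℕ} (hi : i ≤ x.length) (hj : j ≤ i) :
    stp ((x.rotate i).take (x.length - i + j)) = stp x - stp (x.take i) + stp (x.take j) := by
  rw [List.rotate_eq_drop_append_take hi]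
  have h : (x.drop i ++ x.take i).take (x.length - i + j) = x.drop i ++ (x.take i).take j := by
    rw [List.take_append, List.length_drop, Nat.add_sub_cancel_left]
    congr 1
    rw [List.take_of_length_le]
    rw [List.length_drop]
    omega
  rw [h, stp_append', stp_drop', List.take_take, Nat.min_eq_left hj]

private theorem stp_rotate' (x : List ℕ) {i : ℕ} (hi : i ≤ x.length) :
    stp (x.rotate i) = stp x := by
  rw [List.rotate_eq_drop_append_take hi, stp_append', stp_drop']
  ring

theorem cycle_exists (x : List ℕ) (h : stp x = -1) : ∃ i < x.length, Luk (x.rotate i) := by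
  classical
  have hn : 0 < x.length := by
    rcases x with _ | ⟨a, x⟩
    · simp [stp] at h
    · simp
  -- a minimum of the partial sums
  obtain ⟨m, hm, hmin⟩ := Finset.exists_min_image (Finset.range (x.length + 1))
    (fun j => stp (x.take j)) ⟨0, by simp⟩
  have hex : ∃ i, i ≤ x.length ∧ stp (x.take i) = stp (x.take m) :=
    ⟨m, by have := Finset.mem_range.1 hm; omega, rfl⟩
  let i := Nat.find hex
  have hi1 : i ≤ x.length := (Nat.find_spec hex).1
  have hi2 : stp (x.take i) = stp (x.take m) := (Nat.find_spec hex).2
  have hge : ∀ j ≤ x.length, stp (x.take i) ≤ stp (x.take j) := by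
    intro j hj
    rw [hi2]
    exact hmin j (Finset.mem_range.2 (by omega))
  have hgt : ∀ j < i, stp (x.take i) + 1 ≤ stp (x.take j) := by
    intro j hj
    have h1 := hge j (by omega)
    have h2 : stp (x.take j) ≠ stp (x.take i) := by
      intro h3
      exact Nat.find_min hex hj ⟨by omega, by rw [h3, hi2]⟩
    omega
  have hl : Luk (x.rotate i) := by
    refine ⟨by rw [stp_rotate' x hi1, h], ?_⟩
    intro j hj
    rw [List.length_rotate] at hj
    rcases le_or_gt (i + j) x.length with h1 | h1
    · rw [stp_take_rotate_left x hi1 h1]
      have := hge (i + j) h1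
      omega
    · obtain ⟨k, rfl⟩ : ∃ k, j = x.length - i + k := ⟨j - (x.length - i), by omega⟩
      rw [stp_take_rotate_right x hi1 (by omega), h]
      have := hgt k (by omega)
      omega
  rcases hi1.eq_or_lt with h1 | h1
  · refine ⟨0, hn, ?_⟩
    rw [List.rotate_zero]
    rw [h1, List.rotate_length] at hl
    exact hl
  · exact ⟨i, h1, hl⟩

theorem cycle_unique (x : List ℕ) (h : Luk x) (i : ℕ) (hi : i < x.length)
    (h' : Luk (x.rotate i)) : i = 0 := by
  by_contra h0
  have h1 := h'.2 (x.length - i) (by rw [List.length_rotate]; omega)
  have h2 := stp_take_rotate_right x hi.le (Nat.zero_le i)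
  rw [Nat.add_zero] at h2
  rw [h2, h.1] at h1
  have h3 := h.2 i hi
  simp only [List.take_zero] at h1
  have h4 : stp [] = 0 := by simp [stp]
  omega

end HW
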